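import Pool.Agent.helper24.TG.S2

set_option linter.all false
set_option autoImplicit false

/-!
# HP1 (MP_ce98d8_co): the property H1 of the voltages
-/

namespace Pool.Agent.helper24.TG

open Finset Classical
open Pool.Agent.helper11.Tight (nb eo mem_nb)

theorem HP1_c_ge (p : Par) : 10 ^ 6 ≤ p.c := by
  have h1 := p.hLog
  have h2 := p.hLam
  nlinarith

theorem HP1_q_ge (p : Par) : p.c ^ (p.kT + 12) ≤ p.q :=
  le_trans (Nat.le_mul_of_pos_left _ p.hLa) p.N4

theorem HP1_q_pos (p : Par) : 0 < p.q :=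
  lt_of_lt_of_le (pow_pos (lt_of_lt_of_le (by norm_num) (HP1_c_ge p)) _) (HP1_q_ge p)

theorem HP1_C_pos (p : Par) : 0 < p.C := by
  rcases Nat.eq_zero_or_pos p.C with h | h
  · have h1 := p.hC1
    rw [h] at h1
    have hc := HP1_c_ge p
    have hd := p.hd
    have : 0 < p.c ^ 3 * p.q * p.d :=
      Nat.mul_pos (Nat.mul_pos (pow_pos (by omega) _) (HP1_q_pos p)) (by omega)
    omega
  · exact h

section

variable {P O A : Type} [Fintype P] [DecidableEq P] [Fintype O] [DecidableEq O]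
  [Fintype A] [DecidableEq A] [AddCommGroup A]

/-- the base line through two types -/
noncomputable def HP1_ln {q : ℕ} (H : Host P O q) (x y : P) : P :=
  if h : x ≠ y then (H.join x y h).choose else x

theorem HP1_ln_spec {q : ℕ} (H : Host P O q) {x y : P} (h : x ≠ y) :
    H.inc x (HP1_ln H x y) ∧ H.inc y (HP1_ln H x y) := by
  unfold HP1_ln
  rw [dif_pos h]
  exact (H.join x y h).choose_spec

/-- the number of points -/
theorem HP1_card (p : Par) (H : Host P O p.q) (hA : Fintype.card A = p.B) :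
    Fintype.card (P × A) ≤ 2 ^ p.Lam := by
  rw [Fintype.card_prod, H.card_P, hA]
  have h1 := p.s1
  have h2 := HP1_C_pos p
  have h3 := HP1_q_pos p
  have h4 : (p.q ^ 2 + p.q + 1) * p.B ≤ 4 * p.B * p.q ^ 2 * p.C := by
    have h5 : p.q ^ 2 + p.q + 1 ≤ 4 * p.q ^ 2 := by nlinarith
    calc (p.q ^ 2 + p.q + 1) * p.B ≤ (4 * p.q ^ 2) * p.B := Nat.mul_le_mul_right _ h5
      _ = 4 * p.B * p.q ^ 2 := by ring
      _ ≤ 4 * p.B * p.q ^ 2 * p.C := Nat.le_mul_of_pos_right _ h2
  exact h4.trans h1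

/-- the combinatorial part of a failure of H1 -/
def HP1_good (p : Par) (H : Host P O p.q) (e : Finset (P × A) × Finset (P × A)) : Prop :=
  e.1.card = p.c ∧ e.2.card = p.c ∧ (∀ x ∈ e.2, ∀ y ∈ e.2, x.1 = y.1 → x = y) ∧
    (∀ x ∈ e.2, ∀ s ∈ e.1, x.1 ≠ s.1) ∧
    (∀ x ∈ e.2, ∀ s ∈ e.1, ∀ s' ∈ e.1, HP1_ln H x.1 s.1 = HP1_ln H x.1 s'.1 → s = s')

/-- probability of one configuration -/
theorem HP1_one (h3 : VS3_stmt) (p : Par) (H : Host P O p.q) (hA : Fintype.card A = p.B)
    (h2 : ∀ a : A, a + a = 0) (e : Finset (P × A) × Finset (P × A)) (he : HP1_good p H e) :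
    ((Om A H.TT).filter (fun v => ∀ x ∈ e.2, ∀ s ∈ e.1, col H v x s)).card *
      2 ^ (2 * p.c * p.Lam + 10 * p.Lam) ≤ (Om A H.TT).card := by
  obtain ⟨g1, g2, g3, g4, g5⟩ := he
  have hB : 40 < Fintype.card A := by
    rw [hA]
    have := p.N7
    have hc := HP1_c_ge p
    have : p.c ^ 1 ≤ p.c ^ 200 := Nat.pow_le_pow_right (by omega) (by norm_num)
    rw [pow_one] at this
    have h5 := p.N7
    omega
  set ow : (P × A) × (P × A) → P := fun e => HP1_ln H e.1.1 e.2.1 with how
  set F : Finset ((P × A) × (P × A)) :=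
    (e.2 ×ˢ e.1).filter (fun r => ow r ∉ H.fixL) with hF
  set m := 2 * p.c * p.Lam + 10 * p.Lam with hm
  have key := h3 O A H.TT 40 H.cs hB ((P × A) × (P × A)) F
    (fun r => H.orb r.1.1 (ow r)) (fun r => {H.orb r.1.1 (ow r), H.orb r.2.1 (ow r)})
    (fun r => r.1.2 + r.2.2) m (by intro r _; simp) (by
      intro r _
      exact (Finset.card_le_two).trans (by norm_num)) ?_ ?_
  · have hle : 2 ^ m ≤ (Fintype.card A - 40) ^ m := by
      apply Nat.pow_le_pow_left
      rw [hA] at hB ⊢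
      have hc := HP1_c_ge p
      have h5 := p.N7
      have : p.c ^ 1 ≤ p.c ^ 200 := Nat.pow_le_pow_right (by omega) (by norm_num)
      rw [pow_one] at this
      omega
    refine le_trans (Nat.mul_le_mul ?_ hle) key
    apply Finset.card_le_card
    intro v hv
    simp only [Finset.mem_filter] at hv ⊢
    refine ⟨hv.1, ?_⟩
    intro r hr
    rw [hF, Finset.mem_filter, Finset.mem_product] at hr
    have hne := g4 _ hr.1.1 _ hr.1.2
    have hsp := HP1_ln_spec H hne
    have hcol := hv.2 _ hr.1.1 _ hr.1.2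
    rw [col_iff_eq_two h2 hne hsp.1 hsp.2] at hcol
    have hno : H.orb r.1.1 (ow r) ≠ H.orb r.2.1 (ow r) := by
      intro h
      exact hne (H.fixL_spec _ hr.2 _ _ hsp.1 hsp.2 h)
    rw [Finset.sum_pair hno]
    exact hcol
  · -- multiplicity of the own orbits
    intro o
    refine le_trans ?_ (H.orb_le o)
    apply Finset.card_le_card_of_injOn (fun r => (r.1.1, ow r))
    · intro r hr
      rw [Finset.mem_coe, Finset.mem_filter, hF, Finset.mem_filter, Finset.mem_product] at hr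
      rw [Finset.mem_coe, Finset.mem_filter]
      exact ⟨Finset.mem_univ _, (HP1_ln_spec H (g4 _ hr.1.1.1 _ hr.1.1.2)).1, hr.2⟩
    · intro r hr r' hr' heq
      rw [Finset.mem_coe, Finset.mem_filter, hF, Finset.mem_filter, Finset.mem_product] at hr hr'
      simp only [Prod.mk.injEq] at heq
      have e1 : r.1 = r'.1 := g3 _ hr.1.1.1 _ hr'.1.1.1 heq.1
      have e2 : r.2 = r'.2 := by
        apply g5 r.1 hr.1.1.1 _ hr.1.1.2 _ hr'.1.1.2
        have := heq.2
        simp only [how] at this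
        rw [this, heq.1]
      exact Prod.ext e1 e2
  · -- number of equations
    have h5 : (e.2 ×ˢ e.1).card = F.card + ((e.2 ×ˢ e.1).filter (fun r => ¬ ow r ∉ H.fixL)).card := by
      rw [hF]
      exact (Finset.card_filter_add_card_filter_not _).symm
    have h6 : ((e.2 ×ˢ e.1).filter (fun r => ¬ ow r ∉ H.fixL)).card ≤ (e.2 ×ˢ H.fixL).card := by
      apply Finset.card_le_card_of_injOn (fun r => (r.1, ow r))
      · intro r hr
        rw [Finset.mem_coe, Finset.mem_filter, Finset.mem_product] at hr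
        rw [Finset.mem_coe, Finset.mem_product]
        exact ⟨hr.1.1, by simpa using hr.2⟩
      · intro r hr r' hr' heq
        rw [Finset.mem_coe, Finset.mem_filter, Finset.mem_product] at hr hr'
        simp only [Prod.mk.injEq] at heq
        have e2 : r.2 = r'.2 := by
          apply g5 r.1 hr.1.1 _ hr.1.2 _ hr'.1.2
          have := heq.2
          simp only [how] at this
          rw [this, heq.1]
        exact Prod.ext heq.1 e2
    rw [Finset.card_product, g1, g2] at h5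
    rw [Finset.card_product, g2] at h6
    have h7 := H.card_fixL
    have hc := HP1_c_ge p
    have hL := p.hLog
    have h8 : p.c * H.fixL.card ≤ p.c * 3 := Nat.mul_le_mul_left _ h7
    have h9 : p.c * p.c ≤ F.card + p.c * 3 := by omega
    have h10 : 18 * m + p.c * 3 ≤ p.c * p.c := by
      rw [hm]
      nlinarith
    omega

theorem HP1_det (p : Par) (H : Host P O p.q) (v : O → A) (h : ¬ H1 p H v) :
    ∃ e : Finset (P × A) × Finset (P × A), HP1_good p H e ∧
      ∀ x ∈ e.2, ∀ s ∈ e.1, col H v x s := by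
  have hc := HP1_c_ge p
  have hq : p.c ≤ p.q := by
    have h1 := HP1_q_ge p
    have : p.c ^ 1 ≤ p.c ^ (p.kT + 12) := Nat.pow_le_pow_right (by omega) (by omega)
    rw [pow_one] at this
    omega
  unfold H1 at h
  push_neg at h
  obtain ⟨Q, hQ, hX⟩ := h
  set X : Finset (P × A) := Finset.univ.filter (fun x => Q ⊆ Gam H v x) with hXd
  -- degenerate points
  set Dg : Finset (P × A) := X.filter (fun x => ∃ s ∈ Q, ∃ s' ∈ Q, s ≠ s' ∧
    ∃ L, onL H v L x ∧ onL H v L s ∧ onL H v L s') with hDg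
  have hD1 : Dg.card ≤ p.c ^ 2 * (p.q + 1) := by
    have hsub : Dg ⊆ (Q ×ˢ Q).biUnion (fun r =>
        if hL : ∃ L, r.1 ≠ r.2 ∧ onL H v L r.1 ∧ onL H v L r.2 then lin H v hL.choose else ∅) := by
      intro x hx
      rw [hDg, Finset.mem_filter] at hx
      obtain ⟨-, s, hs, s', hs', hne, L, l1, l2, l3⟩ := hx
      rw [Finset.mem_biUnion]
      refine ⟨(s, s'), Finset.mem_product.mpr ⟨hs, hs'⟩, ?_⟩
      have hL : ∃ L, (s, s').1 ≠ (s, s').2 ∧ onL H v L (s, s').1 ∧ onL H v L (s, s').2 :=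
        ⟨L, hne, l2, l3⟩
      rw [dif_pos hL, mem_lin]
      have hsp := hL.choose_spec
      have hne1 : s.1 ≠ s'.1 := fun h => hne (onL_inj l2 l3 h)
      have : hL.choose = L := line_unique hne1 hsp.2.1 hsp.2.2 l2 l3
      rw [this]
      exact l1
    refine (Finset.card_le_card hsub).trans ?_
    refine (Finset.card_biUnion_le).trans ?_
    have : ∀ r ∈ Q ×ˢ Q, (if hL : ∃ L, r.1 ≠ r.2 ∧ onL H v L r.1 ∧ onL H v L r.2 then
        lin H v hL.choose else ∅).card ≤ p.q + 1 := by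
      intro r _
      split_ifs with hL
      · rw [card_lin]
      · simp
    refine (Finset.sum_le_card_nsmul _ _ _ this).trans ?_
    rw [Finset.card_product, hQ, smul_eq_mul]
    apply le_of_eq
    ring
  have hcard : p.c ≤ (X \ Dg).card := by
    have h1 : (X \ Dg).card = X.card - Dg.card :=
      Finset.card_sdiff_of_subset (Finset.filter_subset _ _)
    rw [h1]
    have h2 : 2 * p.c ^ 2 * p.q < X.card := hX
    have h3 : p.c ^ 2 * (p.q + 1) + p.c ≤ 2 * p.c ^ 2 * p.q := by nlinarith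
    omega
  obtain ⟨Y, hY, hYc⟩ := Finset.exists_subset_card_eq hcard
  have hYX : ∀ x ∈ Y, Q ⊆ Gam H v x := by
    intro x hx
    have := (Finset.mem_sdiff.mp (hY hx)).1
    rw [hXd, Finset.mem_filter] at this
    exact this.2
  have hcol : ∀ x ∈ Y, ∀ s ∈ Q, col H v x s := by
    intro x hx s hs
    exact mem_Gam.mp (hYX x hx hs)
  refine ⟨(Q, Y), ⟨hQ, hYc, ?_, ?_, ?_⟩, hcol⟩
  · intro x hx y hy hxy
    obtain ⟨s, hs⟩ : Q.Nonempty := by
      rw [← Finset.card_pos, hQ]; omega
    exact col_unique (col_symm (hcol x hx s hs)) (col_symm (hcol y hy s hs)) hxy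
  · intro x hx s hs
    exact (hcol x hx s hs).1
  · intro x hx s hs s' hs' heq
    by_contra hne
    obtain ⟨n1, L, l1, l2⟩ := hcol x hx s hs
    obtain ⟨n2, M, m1, m2⟩ := hcol x hx s' hs'
    have e1 : L.1 = HP1_ln H x.1 s.1 :=
      H.uniq x.1 s.1 _ _ n1 l1.1 l2.1 (HP1_ln_spec H n1).1 (HP1_ln_spec H n1).2
    have e2 : M.1 = HP1_ln H x.1 s'.1 :=
      H.uniq x.1 s'.1 _ _ n2 m1.1 m2.1 (HP1_ln_spec H n2).1 (HP1_ln_spec H n2).2
    have e3 : L = M := onL_inj' l1 m1 (by rw [e1, e2]; exact heq)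
    have hxD : x ∈ Dg := by
      rw [hDg, Finset.mem_filter]
      refine ⟨(Finset.mem_sdiff.mp (hY hx)).1, s, hs, s', hs', hne, L, l1, l2, ?_⟩
      rw [e3]; exact m2
    exact (Finset.mem_sdiff.mp (hY hx)).2 hxD

end

theorem HP1 (h3 : VS3_stmt) : HP1_stmt := by
  intro p P O A _ _ _ _ _ _ _ H hA h2
  set I : Finset (Finset (P × A) × Finset (P × A)) :=
    Finset.univ.filter (fun e => HP1_good p H e) with hI
  have hIc : I.card ≤ 2 ^ (2 * p.c * p.Lam) := by
    have h4 : I ⊆ (Finset.univ.powersetCard p.c) ×ˢ (Finset.univ.powersetCard p.c) := by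
      intro e he
      rw [hI, Finset.mem_filter] at he
      rw [Finset.mem_product, Finset.mem_powersetCard, Finset.mem_powersetCard]
      exact ⟨⟨Finset.subset_univ _, he.2.1⟩, Finset.subset_univ _, he.2.2.1⟩
    refine (Finset.card_le_card h4).trans ?_
    rw [Finset.card_product, Finset.card_powersetCard, Finset.card_univ]
    have h5 : (Fintype.card (P × A)).choose p.c ≤ (2 ^ p.Lam) ^ p.c :=
      (Nat.choose_le_pow _ _).trans (Nat.pow_le_pow_left (HP1_card p H hA) _)
    calc _ ≤ (2 ^ p.Lam) ^ p.c * (2 ^ p.Lam) ^ p.c := Nat.mul_le_mul h5 h5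
      _ = 2 ^ (2 * p.c * p.Lam) := by rw [← pow_mul, ← pow_add]; congr 1; ring
  have key := ub (Om A H.TT) I (fun e v => ∀ x ∈ e.2, ∀ s ∈ e.1, col H v x s)
    (2 * p.c * p.Lam) (10 * p.Lam) hIc (by
      intro e he
      rw [hI, Finset.mem_filter] at he
      exact HP1_one h3 p H hA h2 e he.2)
  refine le_trans (Nat.mul_le_mul_right _ (Finset.card_le_card ?_)) key
  intro v hv
  rw [Finset.mem_filter] at hv ⊢
  refine ⟨hv.1, ?_⟩
  obtain ⟨e, he, hcol⟩ := HP1_det p H v hv.2
  exact ⟨e, by rw [hI, Finset.mem_filter]; exact ⟨Finset.mem_univ _, he⟩, hcol⟩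

end Pool.Agent.helper24.TG
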